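import Mathlib
import Pool.Agent.Lib.H42D.Corner
import Pool.Agent.Lib.H45Z.TSurf
import Pool.Agent.Lib.H25D.GermBasic

/-!
# MP_273810_co, H25D: half disc germs at the vertices (library H82D; plan of helper42)
-/

open Set Metric Filter Topology

namespace Pool.Agent.Lib.H82D

open Pool.Agent.Lib.H42I (IsPolygon)
open Pool.Agent.H52W (cdet curve Inside)
open Pool.Agent.Lib.H23D (E Gon)
open Pool.Agent.Lib.H45Z
open Pool.Agent.Lib.H25D
open Pool.Agent.Lib.H42D (CornerCone gon_corner)

section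
variable {n N : ℕ} [NeZero N] {P : Set ℂ} {v : ZMod n → ℂ} {kap : ZMod n → ZMod N}

/-- the displacement from the vertex `v i` in the frame of the surface -/
noncomputable def om (v : ZMod n → ℂ) (i : ZMod n) (x : SPt P v N) : ℂ := fri x.g (x.p - v i)

theorem fr_om (i : ZMod n) (x : SPt P v N) : fr x.g (om v i x) = x.p - v i := fr_fri _ _

theorem norm_om (i : ZMod n) (x : SPt P v N) : ‖om v i x‖ = ‖x.p - v i‖ := by
  rw [← fr_om i x, norm_fr]

/-- both mirrors at the vertex fix the vertex -/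
theorem mir_vertex (hk : Par v kap) (i j : ZMod n) (hj : j = i ∨ j = i - 1) (z : ℂ) :
    mir v kap j z - v i = E (2 * kap j) * (starRingEnd ℂ) (z - v i) := by
  rcases hj with rfl | rfl
  · unfold mir; ring
  · have h1 : v i ∈ segment ℝ (v (i - 1)) (v (i - 1 + 1)) := by
      have := right_mem_segment ℝ (v (i - 1)) (v (i - 1 + 1))
      rwa [sub_add_cancel] at this ⊢
    have h2 := mir_side hk (i - 1) (v i) h1
    have h3 : mir v kap (i - 1) z - mir v kap (i - 1) (v i) =
        E (2 * kap (i - 1)) * (starRingEnd ℂ) (z - v i) := by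
      unfold mir
      rw [map_sub, map_sub, map_sub]; ring
    rwa [h2] at h3

/-- the radius of a ball around the vertex that meets only the two sides at the vertex -/
def VBall (v : ZMod n → ℂ) (i : ZMod n) (r : ℝ) : Prop :=
  0 < r ∧ ∀ j, j ≠ i → j ≠ i - 1 → Disjoint (ball (v i) r) (segment ℝ (v j) (v (j + 1)))

theorem exists_vball (hP : IsPolygon P v) (i : ZMod n) : ∃ r, VBall v i r := by
  obtain ⟨r, hr, h⟩ := Pool.Agent.Lib.H32W.vertex_ball hP i
  exact ⟨r, hr, h⟩

/-- the local translation in the coordinate `om` -/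
theorem om_sadd (hP : IsPolygon P v) (hk : Par v kap) {i : ZMod n} {e : ℝ} (he : VBall v i e)
    (x : SPt P v N) (u : ℂ) (hu : ‖u‖ < rho2 v x.p) (hxe : ‖om v i x‖ < e)
    (hue : ‖om v i x + u‖ < e) : om v i (sadd hP hk x u) = om v i x + u := by
  have hn := hP.three_le
  have hpos := rho2_pos hP x.p x.nv
  have e1 := sadd_eq hP hk x u hu
  set z : ℂ := x.p + fr x.g u with hz
  have hzv : z - v i = fr x.g (om v i x + u) := by
    rw [fr_add, fr_om, hz]; ring
  have hzb : z ∈ ball (v i) e := by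
    rw [mem_ball, dist_eq_norm, hzv, norm_fr]; exact hue
  have hxb : x.p ∈ ball (v i) e := by
    rw [mem_ball, dist_eq_norm, ← norm_om]; exact hxe
  have hzr : z ∈ ball x.p (rho2 v x.p) := ball_fr hu
  have hfin : ∀ (w : ℂ) (g : Fr N), ((sadd hP hk x u).p, (sadd hP hk x u).g) = (w, g) →
      fr g (om v i x + u) = w - v i → om v i (sadd hP hk x u) = om v i x + u := by
    intro w g h h'
    have h1 : (sadd hP hk x u).p = w := congrArg Prod.fst h
    have h2 : (sadd hP hk x u).g = g := congrArg Prod.snd h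
    unfold om at h' ⊢
    rw [h1, h2, ← h', fri_fr]
  by_cases h1 : z ∈ interior P
  · rw [fold_int h1] at e1
    exact hfin _ _ e1 hzv.symm
  -- the nearest side is a side at the vertex
  have hside : ∀ y : ℂ, y ∈ ball (v i) e → y ∈ ball x.p (rho2 v x.p) → y ∈ curve v →
      ns v x.p = i ∨ ns v x.p = i - 1 := by
    intro y hy1 hy2 hy3
    rw [curve, mem_iUnion] at hy3
    obtain ⟨j, hj⟩ := hy3
    have h2 := ns_eq hn v x.p hy2 hj
    by_contra hcon
    push Not at hcon
    rw [h2] at hcon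
    exact Set.disjoint_left.1 (he.2 j hcon.1 hcon.2) hy1 hj
  have hcross : ∃ y, y ∈ ball (v i) e ∧ y ∈ ball x.p (rho2 v x.p) ∧ y ∈ frontier P := by
    -- on the segment from `x.p` to `z`
    have hseg : (segment ℝ x.p z ∩ frontier P).Nonempty := by
      by_contra hcon
      rw [not_nonempty_iff_eq_empty] at hcon
      have hpre : IsPreconnected (segment ℝ x.p z) := (convex_segment _ _).isPreconnected
      have hsub : segment ℝ x.p z ⊆ interior P ∪ Pᶜ := by
        intro y hy
        by_cases hyP : y ∈ P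
        · left
          by_contra hyi
          have : y ∈ frontier P := ⟨subset_closure hyP, hyi⟩
          rw [eq_empty_iff_forall_notMem] at hcon
          exact hcon y ⟨hy, this⟩
        · exact Or.inr hyP
      have hx1 : x.p ∈ interior P := by
        rcases hsub (left_mem_segment ℝ _ _) with h | h
        · exact h
        · exact absurd x.mem h
      have hz1 : z ∈ Pᶜ := by
        rcases hsub (right_mem_segment ℝ _ _) with h | h
        · exact absurd h h1
        · exact h
      obtain ⟨y, _, hy1, hy2⟩ := hpre (interior P) Pᶜ isOpen_interior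
        hP.compact.isClosed.isOpen_compl hsub ⟨x.p, left_mem_segment ℝ _ _, hx1⟩
        ⟨z, right_mem_segment ℝ _ _, hz1⟩
      exact hy2 (interior_subset hy1)
    obtain ⟨y, hy1, hy2⟩ := hseg
    refine ⟨y, (convex_ball _ _).segment_subset hxb hzb hy1,
      (convex_ball _ _).segment_subset (mem_ball_self hpos) hzr hy1, hy2⟩
  have hnsi : ns v x.p = i ∨ ns v x.p = i - 1 := by
    obtain ⟨y, hy1, hy2, hy3⟩ := hcross
    refine hside y hy1 hy2 ?_
    rw [hP.frontier_eq] at hy3
    exact hy3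
  have hmirror : fr (rf kap (ns v x.p) x.g) (om v i x + u) = mir v kap (ns v x.p) z - v i := by
    rw [fr_rf, mir_vertex hk i _ hnsi, hzv]
  by_cases h2 : z ∈ P
  · rw [fold_side h1 h2] at e1
    have hzc : z ∈ curve v := by
      have : z ∈ frontier P := ⟨subset_closure h2, h1⟩
      rw [hP.frontier_eq] at this
      exact this
    cases hg : x.g.2
    · simp only [hg] at e1
      exact hfin _ _ e1 hzv.symm
    · simp only [hg, if_true] at e1
      refine hfin _ _ e1 ?_
      have hzs : z ∈ segment ℝ (v (ns v x.p)) (v (ns v x.p + 1)) := by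
        rw [curve, mem_iUnion] at hzc
        obtain ⟨j, hj⟩ := hzc
        rwa [ns_eq hn v x.p hzr hj]
      rw [hmirror, mir_side hk _ _ hzs]
  · rw [fold_out h2] at e1
    exact hfin _ _ e1 hmirror

/-- near the vertex, away from it, the radius is bounded below -/
theorem rho2_bound (hP : IsPolygon P v) {i : ZMod n} {e : ℝ} (he : VBall v i e) {η e' : ℝ}
    (hη : 0 < η) (he' : e' < e) : ∃ c > 0, ∀ p : ℂ, η ≤ ‖p - v i‖ → ‖p - v i‖ ≤ e' → c ≤ rho2 v p := by
  have hn := hP.three_le
  have hne : NeZero n := ⟨by omega⟩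
  have hC : IsCompact {p : ℂ | η ≤ ‖p - v i‖ ∧ ‖p - v i‖ ≤ e'} := by
    have h1 : {p : ℂ | η ≤ ‖p - v i‖ ∧ ‖p - v i‖ ≤ e'} =
        closedBall (v i) e' ∩ {p : ℂ | η ≤ ‖p - v i‖} := by
      ext p
      simp only [mem_closedBall, dist_eq_norm, mem_inter_iff, Set.mem_ofPred_eq]
      tauto
    rw [h1]
    exact (isCompact_closedBall _ _).inter_right (isClosed_le continuous_const (by fun_prop))
  rcases ({p : ℂ | η ≤ ‖p - v i‖ ∧ ‖p - v i‖ ≤ e'}).eq_empty_or_nonempty with h0 | h0
  · refine ⟨1, one_pos, fun p h1 h2 => ?_⟩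
    exact absurd (show p ∈ {p : ℂ | η ≤ ‖p - v i‖ ∧ ‖p - v i‖ ≤ e'} from ⟨h1, h2⟩)
      (by rw [h0]; exact notMem_empty p)
  · obtain ⟨p₀, hp₀, hmin⟩ := hC.exists_isMinOn h0 (rho2_continuous hn v).continuousOn
    refine ⟨rho2 v p₀, rho2_pos hP p₀ (fun j hj => ?_), fun p h1 h2 => hmin ⟨h1, h2⟩⟩
    obtain ⟨h1, h2⟩ := hp₀
    have hb : v j ∈ ball (v i) e := by
      rw [mem_ball, dist_eq_norm, ← hj]; linarith
    have hji : j ≠ i := by
      rintro rfl
      rw [hj, sub_self, norm_zero] at h1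
      linarith
    -- `v j` lies on side `j` and on side `j - 1`, one of them is not a side at `v i`
    have m1 : v j ∈ segment ℝ (v j) (v (j + 1)) := left_mem_segment ℝ _ _
    have m2 : v j ∈ segment ℝ (v (j - 1)) (v (j - 1 + 1)) := by
      have := right_mem_segment ℝ (v (j - 1)) (v (j - 1 + 1))
      rwa [sub_add_cancel] at this ⊢
    have k1 : j = i - 1 := by
      by_contra hcon
      exact Set.disjoint_left.1 (he.2 j hji hcon) hb m1
    have k2 : j - 1 = i := by
      by_contra hcon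
      refine Set.disjoint_left.1 (he.2 (j - 1) hcon ?_) hb m2
      intro h3
      apply hji
      have := congrArg (· + 1) h3
      simpa using this
    -- then `2 = 0` in `ZMod n`
    have h3 : (2 : ZMod n) = 0 := by
      have : i - 1 - 1 = i := by rw [← k1, k2]
      have h4 : i - 1 - 1 = i - 2 := by ring
      rw [h4] at this
      have h5 : i - (i - 2) = i - i := by rw [this]
      simpa using h5
    have h4 : n ∣ 2 := by
      rw [← ZMod.natCast_eq_zero_iff]
      exact_mod_cast h3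
    have := Nat.le_of_dvd (by norm_num) h4
    omega

/-- Segments near the vertex. -/
theorem seg_near (hP : IsPolygon P v) (hk : Par v kap) {i : ZMod n} {e : ℝ} (he : VBall v i e)
    (x : SPt P v N) (W : ℂ) (hb : ∀ s ∈ Icc (0 : ℝ) 1, ‖om v i x + (s : ℂ) * W‖ < e)
    (h0 : ∀ s ∈ Icc (0 : ℝ) 1, om v i x + (s : ℂ) * W ≠ 0) :
    ∃ y, (PS hP hk).Seg x W y ∧ om v i y = om v i x + W := by
  have hcont : Continuous fun s : ℝ => ‖om v i x + (s : ℂ) * W‖ := by fun_prop
  have hne : (Icc (0 : ℝ) 1).Nonempty := ⟨0, by simp⟩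
  obtain ⟨s₁, hs₁, hmin⟩ := isCompact_Icc.exists_isMinOn hne hcont.continuousOn
  obtain ⟨s₂, hs₂, hmax⟩ := isCompact_Icc.exists_isMaxOn hne hcont.continuousOn
  set η := ‖om v i x + (s₁ : ℂ) * W‖ with hη
  set e' := ‖om v i x + (s₂ : ℂ) * W‖ with he'
  have hη0 : 0 < η := norm_pos_iff.2 (h0 s₁ hs₁)
  obtain ⟨c, hc, hcb⟩ := rho2_bound hP he hη0 (hb s₂ hs₂)
  obtain ⟨m, hm⟩ := exists_nat_gt (‖W‖ / c)
  have hm0 : 0 < (m : ℝ) := lt_of_le_of_lt (by positivity) hm
  have key : ∀ k : ℕ, k ≤ m → ∃ y, (PS hP hk).Seg x (((k / m : ℝ) : ℂ) * W) y ∧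
      om v i y = om v i x + ((k / m : ℝ) : ℂ) * W := by
    intro k
    induction k with
    | zero =>
      intro _
      refine ⟨x, ?_, by simp⟩
      have := TSurf.seg_refl (M := PS hP hk) x
      simpa using this
    | succ k ih =>
      intro hkm
      obtain ⟨y, hy, hoy⟩ := ih (by omega)
      have hkI : ((k : ℝ) / m) ∈ Icc (0 : ℝ) 1 := by
        constructor
        · positivity
        · rw [div_le_one hm0]; exact_mod_cast (by omega : k ≤ m)
      have hkI' : (((k + 1 : ℕ) : ℝ) / m) ∈ Icc (0 : ℝ) 1 := by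
        constructor
        · positivity
        · rw [div_le_one hm0]; exact_mod_cast hkm
      have hrad : c ≤ rho2 v y.p := by
        apply hcb
        · rw [← norm_om, hoy]; exact hmin hkI
        · rw [← norm_om, hoy]; exact hmax hkI
      have hstep : ‖((1 / m : ℝ) : ℂ) * W‖ < rho2 v y.p := by
        rw [norm_mul, Complex.norm_real, Real.norm_of_nonneg (by positivity), one_div,
          inv_mul_lt_iff₀ hm0]
        rw [div_lt_iff₀ hc] at hm
        calc ‖W‖ < m * c := hm
          _ ≤ m * rho2 v y.p := mul_le_mul_of_nonneg_left hrad hm0.le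
      have hsum : om v i y + ((1 / m : ℝ) : ℂ) * W = om v i x + ((((k + 1 : ℕ) : ℝ) / m : ℝ) : ℂ) * W := by
        rw [hoy]; push_cast; ring
      refine ⟨sadd hP hk y (((1 / m : ℝ) : ℂ) * W), ?_, ?_⟩
      · have h1 : (PS hP hk).Seg y (((1 / m : ℝ) : ℂ) * W) (sadd hP hk y (((1 / m : ℝ) : ℂ) * W)) :=
          TSurf.seg_add (M := PS hP hk) hstep
        have h2 := TSurf.seg_line hy h1
        convert h2 using 2
        push_cast; ring
      · rw [om_sadd hP hk he y _ hstep (by rw [hoy]; exact hb _ hkI) (by rw [hsum]; exact hb _ hkI'),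
          hsum]
  obtain ⟨y, hy, hoy⟩ := key m le_rfl
  rw [div_self hm0.ne'] at hy hoy
  exact ⟨y, by simpa using hy, by simpa using hoy⟩

/-- segments in the interior keep the frame -/
theorem seg_int (hP : IsPolygon P v) (hk : Par v kap) (x y : SPt P v N) (hg : y.g = x.g)
    (h : segment ℝ x.p y.p ⊆ interior P) (W : ℂ) (hW : fr x.g W = y.p - x.p) :
    (PS hP hk).Seg x W y := by
  have hn := hP.three_le
  have hmem : ∀ s ∈ Icc (0 : ℝ) 1, x.p + fr x.g ((s : ℂ) * W) ∈ interior P := by
    intro s hs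
    apply h
    rw [fr_real, hW]
    refine ⟨1 - s, s, by linarith [hs.2], hs.1, by ring, ?_⟩
    simp only [Complex.real_smul]
    push_cast
    ring
  have hnv : ∀ z ∈ interior P, ∀ j, z ≠ v j := by
    intro z hz j hj
    have h1 := side_mem hP (i := j) (z := v j) (left_mem_segment ℝ _ _)
    rw [← hj] at h1
    exact h1.2 hz
  classical
  let Z : ℝ → SPt P v N := fun s => if hs : s ∈ Icc (0 : ℝ) 1 then
    ⟨x.p + fr x.g ((s : ℂ) * W), x.g, interior_subset (hmem s hs), hnv _ (hmem s hs),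
      fun h' => absurd (hmem s hs) h'⟩ else x
  have hZ : ∀ s (hs : s ∈ Icc (0 : ℝ) 1), Z s = ⟨x.p + fr x.g ((s : ℂ) * W), x.g,
      interior_subset (hmem s hs), hnv _ (hmem s hs), fun h' => absurd (hmem s hs) h'⟩ := by
    intro s hs
    simp only [Z, dif_pos hs]
  refine ⟨Z, ?_, ?_, fun s hs => ?_⟩
  · rw [hZ 0 (by simp)]
    apply SPt.ext
    · simp [fr_zero]
    · rfl
  · rw [hZ 1 (by simp)]
    apply SPt.ext
    · show x.p + fr x.g (((1 : ℝ) : ℂ) * W) = y.p
      rw [Complex.ofReal_one, one_mul, hW]; ring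
    · exact hg.symm
  · have hpos : 0 < rho2 v (Z s).p := rho2_pos hP _ (Z s).nv
    refine ⟨rho2 v (Z s).p / (‖W‖ + 1), by positivity, fun s' hs' hss => ?_⟩
    have hu : ‖((s' - s : ℝ) : ℂ) * W‖ < rho2 v (Z s).p := by
      rw [norm_mul, Complex.norm_real, Real.norm_eq_abs]
      rw [lt_div_iff₀ (by positivity)] at hss
      have := abs_nonneg (s' - s)
      nlinarith [norm_nonneg W]
    have e1 := sadd_eq hP hk (Z s) _ hu
    have hpt : (Z s).p + fr (Z s).g (((s' - s : ℝ) : ℂ) * W) = x.p + fr x.g ((s' : ℂ) * W) := by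
      rw [hZ s hs]
      show x.p + fr x.g ((s : ℂ) * W) + fr x.g (((s' - s : ℝ) : ℂ) * W) = _
      rw [add_assoc, ← fr_add]
      congr 2
      push_cast; ring
    rw [hpt, fold_int (hmem s' hs')] at e1
    rw [hZ s' hs']
    apply SPt.ext
    · exact (congrArg Prod.fst e1).symm
    · have h2 := congrArg Prod.snd e1
      have h3 : (Z s).g = x.g := by rw [hZ s hs]
      have h4 : (sadd hP hk (Z s) (((s' - s : ℝ) : ℂ) * W)).g = (Z s).g := h2
      show x.g = (sadd hP hk (Z s) (((s' - s : ℝ) : ℂ) * W)).g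
      rw [h4, h3]

theorem rho2_le_vertex (hP : IsPolygon P v) (i : ZMod n) (p : ℂ) : rho2 v p ≤ ‖p - v i‖ := by
  have h1 := rho2_le_add hP.three_le v p (v i)
  rwa [rho2_vertex hP i, zero_add] at h1

private theorem vcr_comb (a b h : ℂ) (s : ℝ) :
    cr (a + (s : ℂ) * (b - a)) h = (1 - s) * cr a h + s * cr b h := by
  simp only [cr, Complex.add_re, Complex.add_im, Complex.sub_re, Complex.sub_im,
    Complex.re_ofReal_mul, Complex.im_ofReal_mul]
  ring

private theorem norm_comb {a b : ℂ} {e : ℝ} (ha : ‖a‖ < e) (hb : ‖b‖ < e) {s : ℝ}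
    (hs : s ∈ Icc (0 : ℝ) 1) : ‖a + (s : ℂ) * (b - a)‖ < e := by
  have h1 : a + (s : ℂ) * (b - a) = ((1 - s : ℝ) : ℂ) * a + (s : ℂ) * b := by push_cast; ring
  rw [h1]
  refine (norm_add_le _ _).trans_lt ?_
  rw [norm_mul, norm_mul, Complex.norm_real, Complex.norm_real, Real.norm_of_nonneg hs.1,
    Real.norm_of_nonneg (by linarith [hs.2] : (0 : ℝ) ≤ 1 - s)]
  rcases eq_or_lt_of_le hs.1 with h0 | h0
  · rw [← h0]; simpa using ha
  · nlinarith [mul_lt_mul_of_pos_left hb h0, mul_le_mul_of_nonneg_left ha.le (by linarith [hs.2] : (0 : ℝ) ≤ 1 - s)]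

/-- The half disc germ at a vertex, one direction of the class being inside a corner cone. -/
theorem vgerm [NeZero n] (hP : IsPolygon P v) (hg : Gon v kap) (hk : Par v kap) (i : ZMod n)
    (m0 : ZMod N) : ∃ (kp : (PS hP hk).Germ) (g0 : Fr N) (τ r : ℝ) (K : Set ℂ),
      (τ = 1 ∨ τ = -1) ∧ (PS hP hk).Vert kp ∧ cr (Complex.I * E m0) kp.h = 0 ∧
      CornerCone P v i (fr g0 ((τ : ℂ) * (Complex.I * E m0))) r K ∧
      (∀ w, 0 < cr w kp.h → ‖w‖ < kp.e → fr g0 w ∈ K →
        (kp.k w).p = v i + fr g0 w ∧ (kp.k w).g = g0) ∧ kp.e ≤ r := by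
  classical
  obtain ⟨m, τ, r, K, hτ, hK⟩ := gon_corner hP hg i
  set g0 : Fr N := (m - m0, false) with hg0
  set θ : ℂ := Complex.I * E m0 with hθ
  have hθn : ‖θ‖ = 1 := by rw [hθ, norm_mul, Complex.norm_I, norm_E, one_mul]
  have hfrθ : fr g0 θ = Complex.I * E m := by
    have h1 : fr g0 θ = E (m - m0) * θ := by simp [fr, hg0]
    rw [h1, hθ]
    have h2 : E (m - m0) * (Complex.I * E m0) = Complex.I * (E (m - m0) * E m0) := by ring
    rw [h2, ← Pool.Agent.Lib.H23D.E_add, sub_add_cancel]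
  have hd : fr g0 ((τ : ℂ) * θ) = (τ : ℂ) * (Complex.I * E m) := by rw [fr_real, hfrθ]
  obtain ⟨e0, he0⟩ := exists_vball hP i
  set e : ℝ := min e0 r with he
  have hepos : 0 < e := lt_min he0.1 hK.pos
  have hee0 : e ≤ e0 := min_le_left _ _
  have her : e ≤ r := min_le_right _ _
  have hsq : θ.re ^ 2 + θ.im ^ 2 = 1 := by
    have h3 : ‖θ‖ ^ 2 = θ.re ^ 2 + θ.im ^ 2 := by
      rw [← Complex.normSq_eq_norm_sq, Complex.normSq_apply]; ring
    rw [← h3, hθn]; norm_num
  -- a base point
  obtain ⟨b, hbn, hbc, hbK⟩ : ∃ b : ℂ, ‖b‖ < e ∧ 0 < cr b θ ∧ fr g0 b ∈ K := by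
    obtain ⟨δ, hδ, hball⟩ := Metric.isOpen_iff.1 hK.isOpen _ hK.mem
    set ν : ℂ := -(Complex.I * θ) with hν
    have hνn : ‖ν‖ = 1 := by rw [hν, norm_neg, norm_mul, Complex.norm_I, hθn, one_mul]
    have hνc : cr ν θ = 1 := by
      rw [hν]
      simp only [cr, Complex.neg_re, Complex.neg_im, Complex.mul_re, Complex.mul_im, Complex.I_re,
        Complex.I_im]
      linarith
    set b1 : ℂ := (τ : ℂ) * θ + ((δ / 2 : ℝ) : ℂ) * ν with hb1
    have hb1K : fr g0 b1 ∈ K := by
      apply hball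
      rw [hb1, fr_add, hd, mem_ball, dist_eq_norm, add_sub_cancel_left, fr_real, norm_mul,
        Complex.norm_real, Real.norm_of_nonneg (by positivity), norm_fr, hνn]
      linarith
    have hb1c : cr b1 θ = δ / 2 := by
      have h1 : cr b1 θ = τ * cr θ θ + δ / 2 * cr ν θ := by
        rw [hb1]
        simp only [cr, Complex.add_re, Complex.add_im, Complex.re_ofReal_mul, Complex.im_ofReal_mul]
        ring
      rw [h1, hνc]
      simp only [cr]; ring
    set t : ℝ := e / (2 * (‖b1‖ + 1)) with ht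
    have ht0 : 0 < t := by positivity
    refine ⟨(t : ℂ) * b1, ?_, ?_, ?_⟩
    · rw [norm_mul, Complex.norm_real, Real.norm_of_nonneg ht0.le, ht, div_mul_eq_mul_div,
        div_lt_iff₀ (by positivity)]
      nlinarith [norm_nonneg b1]
    · have h1 : cr ((t : ℂ) * b1) θ = t * cr b1 θ := by
        simp only [cr, Complex.re_ofReal_mul, Complex.im_ofReal_mul]; ring
      rw [h1, hb1c]; positivity
    · rw [fr_real]
      exact hK.smul _ hb1K t ht0
  have hnv : ∀ z ∈ interior P, ∀ j, z ≠ v j := by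
    intro z hz j hj
    have h1 := side_mem hP (i := j) (z := v j) (left_mem_segment ℝ _ _)
    rw [← hj] at h1
    exact h1.2 hz
  have hin : ∀ w : ℂ, ‖w‖ < e → fr g0 w ∈ K → v i + fr g0 w ∈ interior P := by
    intro w hw hwK
    exact hK.inside _ hwK (by rw [norm_fr]; exact hw.trans_le her)
  let S : ∀ w : ℂ, ‖w‖ < e → fr g0 w ∈ K → SPt P v N := fun w hw hwK =>
    ⟨v i + fr g0 w, g0, interior_subset (hin w hw hwK), hnv _ (hin w hw hwK),
      fun h' => absurd (hin w hw hwK) h'⟩
  set B : SPt P v N := S b hbn hbK with hB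
  have homB : om v i B = b := by
    show fri g0 (v i + fr g0 b - v i) = b
    rw [add_sub_cancel_left, fri_fr]
  -- all points of the half disc are reached
  have reach : ∀ w : ℂ, 0 ≤ cr w θ → ‖w‖ < e → w ≠ 0 →
      ∃ y, (PS hP hk).Seg B (w - b) y ∧ om v i y = w := by
    intro w hw1 hw2 hw3
    obtain ⟨y, hy1, hy2⟩ := seg_near hP hk he0 B (w - b) (fun s hs => by
        rw [homB]; exact (norm_comb hbn hw2 hs).trans_le hee0) (fun s hs h0 => by
        rw [homB] at h0
        have h1 := vcr_comb b w θ s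
        rw [h0] at h1
        have h2 : cr 0 θ = 0 := by simp [cr]
        rw [h2] at h1
        rcases eq_or_lt_of_le hs.2 with h3 | h3
        · rw [h3] at h0
          apply hw3
          rw [← h0]; push_cast; ring
        · have h4 : 0 < (1 - s) * cr b θ := mul_pos (by linarith) hbc
          have h5 : 0 ≤ s * cr w θ := mul_nonneg hs.1 hw1
          linarith)
    refine ⟨y, hy1, ?_⟩
    rw [hy2, homB]; ring
  let kf : ℂ → SPt P v N := fun w => if h : ∃ y, (PS hP hk).Seg B (w - b) y then h.choose else B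
  have hkf : ∀ w : ℂ, 0 ≤ cr w θ → ‖w‖ < e → w ≠ 0 →
      (PS hP hk).Seg B (w - b) (kf w) ∧ om v i (kf w) = w := by
    intro w hw1 hw2 hw3
    obtain ⟨y, hy1, hy2⟩ := reach w hw1 hw2 hw3
    have hex : ∃ y, (PS hP hk).Seg B (w - b) y := ⟨y, hy1⟩
    have h1 : (PS hP hk).Seg B (w - b) (kf w) := by
      simp only [kf, dif_pos hex]
      exact hex.choose_spec
    have h2 : kf w = y := TSurf.seg_unique h1 hy1
    exact ⟨h1, by rw [h2]; exact hy2⟩
  have hmem_seg : ∀ (w w' : ℂ) (s : ℝ), s ∈ Icc (0 : ℝ) 1 →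
      w + (s : ℂ) * (w' - w) ∈ segment ℝ w w' := by
    intro w w' s hs
    refine ⟨1 - s, s, by linarith [hs.2], hs.1, by ring, ?_⟩
    simp only [Complex.real_smul]
    push_cast
    ring
  let kp : (PS hP hk).Germ :=
    { h := θ
      e := e
      k := kf
      hh := by
        intro h
        rw [h, norm_zero] at hθn
        exact zero_ne_one hθn
      he := hepos
      seg := by
        intro w w' h1 h1' h2 h2' h0
        have hw : w ≠ 0 := by rintro rfl; exact h0 (left_mem_segment ℝ _ _)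
        have hw' : w' ≠ 0 := by rintro rfl; exact h0 (right_mem_segment ℝ _ _)
        refine TSurf.seg_tri (x := B) (A := w - b) (B := w' - w) (fun s hs => ?_)
          (hkf w h1 h2 hw).1 ?_
        · obtain ⟨y, hy, _⟩ := reach (w + (s : ℂ) * (w' - w)) (by
            rw [vcr_comb]
            have := mul_nonneg (by linarith [hs.2] : (0 : ℝ) ≤ 1 - s) h1
            have := mul_nonneg hs.1 h1'
            linarith) (norm_comb h2 h2' hs) (fun h3 => h0 (by
              rw [← h3]; exact hmem_seg w w' s hs))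
          refine ⟨y, ?_⟩
          convert hy using 1
          ring
        · convert (hkf w' h1' h2' hw').1 using 1
          ring }
  refine ⟨kp, g0, τ, r, K, hτ, ?_, ?_, ?_, ?_, her⟩
  · -- the centre is a vertex
    rintro x W hs ⟨y, hy⟩
    have hW0 : W ≠ 0 := by
      rintro rfl
      have := hs.1
      simp [cr] at this
    have hWn : 0 < ‖W‖ := norm_pos_iff.2 hW0
    obtain ⟨s₀, hs₀, hs₀1, hlast⟩ := TSurf.sees_last hs
    obtain ⟨z, ρ, hρ, -, -, hrad, hseg, -⟩ := TSurf.seg_path hy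
    set s : ℝ := min s₀ (ρ / (2 * ‖W‖)) with hsdef
    have hs0 : 0 < s := lt_min hs₀ (by positivity)
    have hss₀ : s ≤ s₀ := min_le_left _ _
    obtain ⟨h1, h2⟩ := hlast s hs0 hss₀
    have hI : (1 - s) ∈ Icc (0 : ℝ) 1 := ⟨by linarith, by linarith⟩
    have h3 := hseg (1 - s) hI
    have h4 := TSurf.seg_unique h3 h2
    have h5 := hrad (1 - s) hI
    have hc0 : 0 < cr (-((s : ℂ) * W)) θ := by
      have h6 : cr (-((s : ℂ) * W)) θ = s * cr (-W) θ := by
        simp only [cr, Complex.neg_re, Complex.neg_im, Complex.re_ofReal_mul,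
          Complex.im_ofReal_mul]
        ring
      rw [h6]
      exact mul_pos hs0 hs.1
    have hnz : -((s : ℂ) * W) ≠ 0 := by
      intro h6
      rw [h6] at hc0
      simp [cr] at hc0
    have hn1 : ‖-((s : ℂ) * W)‖ = s * ‖W‖ := by
      rw [norm_neg, norm_mul, Complex.norm_real, Real.norm_of_nonneg hs0.le]
    have h7 := (hkf (-((s : ℂ) * W)) hc0.le (by rw [hn1]; exact h1) hnz).2
    have h8 : rho2 v (z (1 - s)).p ≤ s * ‖W‖ := by
      have h9 := rho2_le_vertex hP i (z (1 - s)).p
      rw [← norm_om, h4] at h9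
      have h10 : om v i (kp.k (-((s : ℂ) * W))) = -((s : ℂ) * W) := h7
      rw [h10, hn1] at h9
      rw [h4]
      exact h9
    have h11 : s * ‖W‖ ≤ ρ / 2 := by
      have h12 : s ≤ ρ / (2 * ‖W‖) := min_le_right _ _
      rw [le_div_iff₀ (by positivity)] at h12
      linarith
    have h13 : ρ ≤ rho2 v (z (1 - s)).p := h5
    linarith
  · show cr θ θ = 0
    simp only [cr]; ring
  · rw [hd]; exact hK
  · intro w hw1 hw2 hw3
    have hw1' : 0 < cr w θ := hw1
    have hw2' : ‖w‖ < e := hw2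
    have hw0 : w ≠ 0 := by
      rintro rfl
      simp [cr] at hw1'
    have h1 : (PS hP hk).Seg B (w - b) (S w hw2' hw3) := by
      apply seg_int hP hk B (S w hw2' hw3) rfl
      · intro z hz
        obtain ⟨a, c, ha, hc, hac, rfl⟩ := hz
        have h3 : a • (v i + fr g0 b) + c • (v i + fr g0 w) = v i + fr g0 (b + (c : ℂ) * (w - b)) := by
          have ha' : a = 1 - c := by linarith
          rw [fr_add, fr_real, fr_sub, ha']
          simp only [Complex.real_smul]
          push_cast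
          ring
        show a • (v i + fr g0 b) + c • (v i + fr g0 w) ∈ interior P
        rw [h3]
        apply hin
        · exact norm_comb hbn hw2' ⟨hc, by linarith⟩
        · have h4 : fr g0 (b + (c : ℂ) * (w - b)) = a • fr g0 b + c • fr g0 w := by
            have ha' : a = 1 - c := by linarith
            rw [fr_add, fr_real, fr_sub, ha']
            simp only [Complex.real_smul]
            push_cast
            ring
          rw [h4]
          exact hK.convex hbK hw3 ha hc hac
      · show fr g0 (w - b) = (v i + fr g0 w) - (v i + fr g0 b)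
        rw [fr_sub]; ring
    have h2 : kf w = S w hw2' hw3 := TSurf.seg_unique (hkf w hw1'.le hw2' hw0).1 h1
    constructor
    · show (kf w).p = _
      rw [h2]
    · show (kf w).g = _
      rw [h2]

end

end Pool.Agent.Lib.H82D
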